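import Pool.Agent.Helper33.FQ2

/-!
# Fujita's very ampleness conjecture for étale quotients by diagonal groups of any order

`Y ⊂ P^N` is given by a homogeneous ideal `I`, and a finite group `G` acts by diagonal matrices on
`P^N`, preserving `Y`, freely on `Y`. Let `ω_Y = O(κ)` and `n = dim Y`, and let `Y` be a complete
intersection, or arithmetically Cohen-Macaulay. For `X = Y/G` and a line bundle `A` on `X` whose
pullback to `Y` is `O(k)`, `k ≥ 1`, the sections of `K_X + mA` are the forms of degree `κ + mk` on the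
cone over `Y` on which `G` acts by a given character `χ`.

We prove that `K_X + mA` is very ample if `m ≥ n + 2` and `mk ≥ κ + 2n + 3`; there is no condition on
the order of `G`. So the conjecture holds for `X` and `A`, for all `m ≥ n + 2`, if `k ≥ 2` and
`κ ≤ (k - 2) (n + 2) + 1`: for all `k ≥ 2` if `κ ≤ 1`, and for each `κ` for all but finitely many `k`.
-/

set_option autoImplicit false

namespace Pool.Agent.Results.MP_e09b14_ag.DivisiblePolarizations

open MvPolynomial Pool.Agent.Helper33.FQ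

/-- The sections of `K_X + mA` have no common zero, separate points and separate tangent vectors. The
condition is `mk ≥ κ + 2n + 3`, or `k ≥ 2` and `κ ≤ (k - 2) (n + 2) + 1`. -/
theorem result {G : Type} [Group G] [Finite G] {N : ℕ} (D : DiagonalCover G N) (n : ℕ) (κ : ℤ)
    (hY : CompleteIntersection D.I n κ ∨ CohenMacaulay D.I n κ)
    (k m e : ℕ) (hk : 1 ≤ k) (hm : n + 2 ≤ m) (he : (e : ℤ) = κ + m * k)
    (h : κ + 2 * n + 3 ≤ m * k ∨ 2 ≤ k ∧ κ ≤ (k - 2) * (n + 2) + 1)
    (χ : G →* ℂˣ) :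
    -- no base points
    (∀ y : Fin (N + 1) → ℂ, y ≠ 0 → (∀ p ∈ D.I, eval y p = 0) →
      ∃ F, Section D e χ F ∧ eval y F ≠ 0) ∧
    -- points are separated
    (∀ y z : Fin (N + 1) → ℂ, y ≠ 0 → z ≠ 0 → (∀ p ∈ D.I, eval y p = 0) →
      (∀ p ∈ D.I, eval z p = 0) → (¬ ∃ (g : G) (c : ℂ), ∀ i, z i = c * (D.α i g * y i)) →
      ∃ F, Section D e χ F ∧ eval y F = 0 ∧ eval z F ≠ 0) ∧
    -- tangent vectors are separated
    (∀ y u : Fin (N + 1) → ℂ, y ≠ 0 → (∀ p ∈ D.I, eval y p = 0) →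
      (¬ ∃ c : ℂ, ∀ i, u i = c * y i) →
      ∃ F, Section D e χ F ∧ eval y F = 0 ∧ ∑ i, eval y (pderiv i F) * u i ≠ 0) := by
  have hmk : ((n : ℤ) + 2) * k ≤ m * k := by
    have h1 : (n + 2) * k ≤ m * k := Nat.mul_le_mul_right k hm
    exact_mod_cast h1
  have hk' : (1 : ℤ) ≤ k := by exact_mod_cast hk
  have hn : (0 : ℤ) ≤ n := Nat.cast_nonneg n
  have h2 : κ + 2 * n + 3 ≤ m * k := by
    rcases h with h | ⟨h2, h3⟩
    · exact h
    · have h4 : ((k : ℤ) - 2) * (n + 2) = (n + 2) * k - 2 * n - 4 := by ring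
      linarith
  have hne : (n : ℤ) + 1 ≤ m * k := by nlinarith
  refine ⟨fun y hy0 hy => ?_, fun y z hy0 hz0 hy hz hyz => ?_, fun y u hy0 hy hu => ?_⟩
  · obtain ⟨μ, h1, h2⟩ := free D n κ hY e (by omega) χ y hy0 hy
    exact ⟨_, h1, h2⟩
  · exact sep_points D n κ hY e (by omega) χ y z hy0 hz0 hy hz hyz
  · exact sep_tangents D n κ hY e (by omega) χ y u hy0 hy hu

end Pool.Agent.Results.MP_e09b14_ag.DivisiblePolarizations
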